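import Pool.Agent.H126R2.CDC.Main

set_option autoImplicit false

/-!
The circuit double cover theorem: every bridgeless finite graph has a family of circuits that
contains every edge exactly twice. Hence there is no counterexample to the circuit double cover
conjecture, and in particular no smallest counterexample with a cyclic 4-edge-cut.

Outline of the proof.
* `exists_flow8` (Jaeger, Kilpatrick): a bridgeless graph has three even edge sets
  `A 0, A 1, A 2` that cover all edges.
* `lift`: then there are even edge sets `B 0, B 1, B 2` such that
  `A 0 * B 0 + A 1 * B 1 + A 2 * B 2 = 1` on every edge, over the field with two elements. By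
  linear duality this says that `|D|` is even whenever every `D ∩ A i` is a cut `δ(X i)`, and this
  follows from the identity `c₁c₂c₃ = Σ (xᵢxⱼ(u) + xᵢxⱼ(v)) cₖ`, where `xᵢ` is the indicator of
  `X i` and `cᵢ = xᵢ(u) + xᵢ(v)` on the edge `uv`.
* The vectors `(x, t)` of the six-dimensional space with `x · t = 1` are the pairs of eight
  colours, and at a vertex of degree three the pairs form a triangle; so the eight colour classes
  are even edge sets that contain every edge exactly twice. Vertices of larger degree are split
  first.
-/

namespace Pool.Agent.Results.MP_b1bfa0_co.CircuitDoubleCover

open Pool.Agent.H126R2.CDC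

/-- Every bridgeless finite graph (loops and parallel edges allowed) has a circuit double cover. -/
theorem result (V E : Type) [Fintype V] [DecidableEq V] [Fintype E] [DecidableEq E]
    (G : MGraph V E) (hG : G.Bridgeless) : ∃ F : Multiset (Finset E), G.IsCDC F :=
  G.exists_cdc hG

end Pool.Agent.Results.MP_b1bfa0_co.CircuitDoubleCover
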